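import Pool.Agent.AE32.Defs

/-!
# Global median orders

A median order of a finite set `X` of vertices of a tournament is given by its position function `p`: the number of
forward arcs is maximal, which is used in the form that it does not pay to move a set `S` of vertices in front of a
vertex `x` which precedes all of them, or behind a vertex which follows all of them.
-/

set_option autoImplicit false

namespace AEM

open Finset
open scoped Classical

set_option linter.unusedSectionVars false

section basic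

variable {V : Type*} {R : V → V → Prop}

/-- number of forward arcs of a position function -/
noncomputable def fw (R : V → V → Prop) (X : Finset V) (p : V → ℕ) : ℕ :=
  ((X ×ˢ X).filter (fun q => R q.1 q.2 ∧ p q.1 < p q.2)).card

/-- an optimal key function -/
def Opt (R : V → V → Prop) (X : Finset V) (p : V → ℕ) : Prop :=
  Set.InjOn p X ∧ ∀ p' : V → ℕ, Set.InjOn p' X → fw R X p' ≤ fw R X p

theorem exists_opt (R : V → V → Prop) (X : Finset V) : ∃ p, Opt R X p := by
  obtain ⟨p₀, hp₀⟩ := (Set.countable_iff_exists_injOn.1 X.finite_toSet.countable)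
  have hfin : (fw R X '' {p | Set.InjOn p X}).Finite := by
    apply (Set.finite_Iic ((X ×ˢ X).card)).subset
    rintro _ ⟨p, _, rfl⟩
    exact card_filter_le _ _
  obtain ⟨m, ⟨p, hp, rfl⟩, hmax⟩ := Set.exists_max_image _ id hfin ⟨_, ⟨p₀, hp₀, rfl⟩⟩
  exact ⟨p, hp, fun p' hp' => hmax _ ⟨p', hp', rfl⟩⟩

theorem sum_card_filter {S X : Finset V} (Q : V → V → Prop) [∀ u w, Decidable (Q u w)] :
    ((S ×ˢ X).filter (fun q => Q q.1 q.2)).card = ∑ u ∈ S, (X.filter (fun w => Q u w)).card := by
  rw [card_filter, sum_product]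
  apply sum_congr rfl
  intro u _
  rw [card_filter]

/-- optimal orders: moving a set to the front -/
theorem Opt.front {X : Finset V} {p : V → ℕ} (h : Opt R X p) {x : V} {S : Finset V} (hS : S ⊆ X)
    (hx : ∀ u ∈ S, p x < p u) :
    ∑ u ∈ S, (X.filter (fun w => w ∉ S ∧ p x ≤ p w ∧ p w < p u ∧ R u w)).card ≤
      ∑ u ∈ S, (X.filter (fun w => w ∉ S ∧ p x ≤ p w ∧ p w < p u ∧ R w u)).card := by
  obtain ⟨M, hM⟩ : ∃ M, ∀ u ∈ X, p u < M := ⟨X.sup p + 1, fun u hu => Nat.lt_succ_of_le (le_sup (f := p) hu)⟩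
  obtain ⟨p', hp'⟩ : ∃ p' : V → ℕ, p' = fun u => if p u < p x then p u else if u ∈ S then M + p u else 2 * M + p u :=
    ⟨_, rfl⟩
  have hinj : Set.InjOn p' X := by
    intro u hu w hw huw
    have h1 := hM u hu
    have h2 := hM w hw
    apply h.1 hu hw
    simp only [hp'] at huw
    split_ifs at huw <;> omega
  have hle := h.2 p' hinj
  unfold fw at hle
  set F := (X ×ˢ X).filter (fun q => R q.1 q.2 ∧ p q.1 < p q.2) with hF
  set F' := (X ×ˢ X).filter (fun q => R q.1 q.2 ∧ p' q.1 < p' q.2) with hF'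
  have h3 : (F' \ F).card ≤ (F \ F').card := by
    have h4 := card_sdiff_add_card F' F
    have h5 := card_sdiff_add_card F F'
    rw [union_comm] at h5
    omega
  rw [← sum_card_filter (S := S) (X := X) (fun u w => w ∉ S ∧ p x ≤ p w ∧ p w < p u ∧ R u w),
    ← sum_card_filter (S := S) (X := X) (fun u w => w ∉ S ∧ p x ≤ p w ∧ p w < p u ∧ R w u)]
  refine le_trans (card_le_card ?_) (le_trans h3 ?_)
  · rintro ⟨u, w⟩ hq
    rw [mem_filter, mem_product] at hq
    obtain ⟨⟨hu, hw⟩, h4, h5, h6, h7⟩ := hq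
    simp only at hu hw h4 h5 h6 h7
    rw [mem_sdiff, hF, hF', mem_filter, mem_filter, mem_product]
    have h8 := hx u hu
    have h9 := hM u (hS hu)
    refine ⟨⟨⟨hS hu, hw⟩, h7, ?_⟩, ?_⟩
    · simp only [hp']
      rw [if_neg (by omega), if_pos hu, if_neg (by omega), if_neg h4]
      omega
    · rintro ⟨_, _, h10⟩
      simp only at h10
      omega
  · have h4 : F \ F' ⊆ ((S ×ˢ X).filter (fun q => q.2 ∉ S ∧ p x ≤ p q.2 ∧ p q.2 < p q.1 ∧ R q.2 q.1)).image
        (fun q => (q.2, q.1)) := by
      rintro ⟨a, b⟩ hq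
      rw [mem_sdiff, hF, hF', mem_filter, mem_filter, mem_product] at hq
      obtain ⟨⟨⟨ha, hb⟩, h5, h6⟩, h7⟩ := hq
      simp only at ha hb h5 h6 h7
      have h8 : ¬ p' a < p' b := fun h9 => h7 ⟨⟨ha, hb⟩, h5, h9⟩
      have h9 := hM a ha
      have h10 := hM b hb
      simp only [hp'] at h8
      rw [mem_image]
      refine ⟨(b, a), ?_, rfl⟩
      rw [mem_filter, mem_product]
      by_cases h11 : p b < p x
      · rw [if_pos h11, if_pos (by omega)] at h8
        omega
      · rw [if_neg h11] at h8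
        by_cases h12 : b ∈ S
        · rw [if_pos h12] at h8
          by_cases h13 : p a < p x
          · rw [if_pos h13] at h8
            omega
          · rw [if_neg h13] at h8
            by_cases h14 : a ∈ S
            · rw [if_pos h14] at h8
              omega
            · exact ⟨⟨h12, ha⟩, h14, not_lt.1 h13, h6, h5⟩
        · rw [if_neg h12] at h8
          split_ifs at h8 <;> omega
    exact le_trans (card_le_card h4) card_image_le

/-- optimal orders: moving a set to the back -/
theorem Opt.back {X : Finset V} {p : V → ℕ} (h : Opt R X p) {x : V} {S : Finset V} (hS : S ⊆ X)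
    (hx : ∀ u ∈ S, p u < p x) :
    ∑ u ∈ S, (X.filter (fun w => w ∉ S ∧ p u < p w ∧ p w ≤ p x ∧ R w u)).card ≤
      ∑ u ∈ S, (X.filter (fun w => w ∉ S ∧ p u < p w ∧ p w ≤ p x ∧ R u w)).card := by
  obtain ⟨M, hM⟩ : ∃ M, ∀ u ∈ X, p u < M := ⟨X.sup p + 1, fun u hu => Nat.lt_succ_of_le (le_sup (f := p) hu)⟩
  obtain ⟨p', hp'⟩ : ∃ p' : V → ℕ, p' = fun u => if p x < p u then 2 * M + p u else if u ∈ S then M + p u else p u :=
    ⟨_, rfl⟩
  have hinj : Set.InjOn p' X := by
    intro u hu w hw huw
    have h1 := hM u hu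
    have h2 := hM w hw
    apply h.1 hu hw
    simp only [hp'] at huw
    split_ifs at huw <;> omega
  have hle := h.2 p' hinj
  unfold fw at hle
  set F := (X ×ˢ X).filter (fun q => R q.1 q.2 ∧ p q.1 < p q.2) with hF
  set F' := (X ×ˢ X).filter (fun q => R q.1 q.2 ∧ p' q.1 < p' q.2) with hF'
  have h3 : (F' \ F).card ≤ (F \ F').card := by
    have h4 := card_sdiff_add_card F' F
    have h5 := card_sdiff_add_card F F'
    rw [union_comm] at h5
    omega
  rw [← sum_card_filter (S := S) (X := X) (fun u w => w ∉ S ∧ p u < p w ∧ p w ≤ p x ∧ R w u),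
    ← sum_card_filter (S := S) (X := X) (fun u w => w ∉ S ∧ p u < p w ∧ p w ≤ p x ∧ R u w)]
  have h4 : ((S ×ˢ X).filter (fun q => q.2 ∉ S ∧ p q.1 < p q.2 ∧ p q.2 ≤ p x ∧ R q.2 q.1)).image
      (fun q => (q.2, q.1)) ⊆ F' \ F := by
    intro q' hq'
    rw [mem_image] at hq'
    obtain ⟨⟨u, w⟩, hq, rfl⟩ := hq'
    rw [mem_filter, mem_product] at hq
    obtain ⟨⟨hu, hw⟩, h4, h5, h6, h7⟩ := hq
    simp only at hu hw h4 h5 h6 h7
    rw [mem_sdiff, hF, hF', mem_filter, mem_filter, mem_product]
    have h8 := hx u hu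
    have h9 := hM w hw
    refine ⟨⟨⟨hw, hS hu⟩, h7, ?_⟩, ?_⟩
    · simp only [hp']
      rw [if_neg (by omega), if_neg h4, if_neg (by omega), if_pos hu]
      omega
    · rintro ⟨_, _, h10⟩
      simp only at h10
      omega
  have h5 : (((S ×ˢ X).filter (fun q => q.2 ∉ S ∧ p q.1 < p q.2 ∧ p q.2 ≤ p x ∧ R q.2 q.1)).image
      (fun q => (q.2, q.1))).card =
      ((S ×ˢ X).filter (fun q => q.2 ∉ S ∧ p q.1 < p q.2 ∧ p q.2 ≤ p x ∧ R q.2 q.1)).card := by
    apply card_image_of_injective
    rintro ⟨a, b⟩ ⟨a', b'⟩ hab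
    simp only [Prod.mk.injEq] at hab
    rw [hab.1, hab.2]
  rw [← h5]
  refine le_trans (card_le_card h4) (le_trans h3 ?_)
  refine card_le_card ?_
  rintro ⟨a, b⟩ hq
  rw [mem_sdiff, hF, hF', mem_filter, mem_filter, mem_product] at hq
  obtain ⟨⟨⟨ha, hb⟩, h5, h6⟩, h7⟩ := hq
  simp only at ha hb h5 h6 h7
  have h8 : ¬ p' a < p' b := fun h9 => h7 ⟨⟨ha, hb⟩, h5, h9⟩
  have h9 := hM a ha
  have h10 := hM b hb
  simp only [hp'] at h8
  rw [mem_filter, mem_product]
  by_cases h11 : p x < p a
  · rw [if_pos h11, if_pos (by omega)] at h8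
    omega
  · rw [if_neg h11] at h8
    by_cases h12 : a ∈ S
    · rw [if_pos h12] at h8
      by_cases h13 : p x < p b
      · rw [if_pos h13] at h8
        omega
      · rw [if_neg h13] at h8
        by_cases h14 : b ∈ S
        · rw [if_pos h14] at h8
          omega
        · exact ⟨⟨h12, hb⟩, h14, h6, not_lt.1 h13, h5⟩
    · rw [if_neg h12] at h8
      split_ifs at h8 <;> omega

/-- **Median orders**, given by the position function. -/
structure MedO (R : V → V → Prop) (X : Finset V) (p : V → ℕ) : Prop where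
  lt : ∀ u ∈ X, p u < X.card
  inj : ∀ u ∈ X, ∀ w ∈ X, p u = p w → u = w
  front : ∀ x ∈ X, ∀ S ⊆ X, (∀ u ∈ S, p x < p u) →
    ∑ u ∈ S, (X.filter (fun w => w ∉ S ∧ p x ≤ p w ∧ p w < p u ∧ R u w)).card ≤
      ∑ u ∈ S, (X.filter (fun w => w ∉ S ∧ p x ≤ p w ∧ p w < p u ∧ R w u)).card
  back : ∀ x ∈ X, ∀ S ⊆ X, (∀ u ∈ S, p u < p x) →
    ∑ u ∈ S, (X.filter (fun w => w ∉ S ∧ p u < p w ∧ p w ≤ p x ∧ R w u)).card ≤
      ∑ u ∈ S, (X.filter (fun w => w ∉ S ∧ p u < p w ∧ p w ≤ p x ∧ R u w)).card

theorem exists_medO (R : V → V → Prop) (X : Finset V) : ∃ p, MedO R X p := by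
  obtain ⟨q, hq⟩ := exists_opt R X
  obtain ⟨p, hp⟩ : ∃ p : V → ℕ, p = fun u => (X.filter (fun w => q w < q u)).card := ⟨_, rfl⟩
  have hlt : ∀ u ∈ X, ∀ w ∈ X, (p u < p w ↔ q u < q w) := by
    have h1 : ∀ u ∈ X, ∀ w, q u < q w → p u < p w := by
      intro u hu w h
      rw [hp]
      apply card_lt_card
      rw [ssubset_iff_of_subset]
      · exact ⟨u, by rw [mem_filter]; exact ⟨hu, h⟩, by rw [mem_filter]; exact fun h' => absurd h'.2 (lt_irrefl _)⟩
      · intro a ha
        rw [mem_filter] at ha ⊢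
        exact ⟨ha.1, ha.2.trans h⟩
    intro u hu w hw
    refine ⟨fun h => ?_, h1 u hu w⟩
    by_contra hcon
    rcases Nat.lt_or_ge (q w) (q u) with h2 | h2
    · have := h1 w hw u h2
      omega
    · have h3 : q u = q w := by omega
      rw [hp] at h
      simp only [h3] at h
      omega
  have hopt : Opt R X p := by
    constructor
    · intro u hu w hw huw
      apply hq.1 hu hw
      have h1 := hlt u hu w hw
      have h2 := hlt w hw u hu
      by_contra hcon
      rcases Nat.lt_or_gt_of_ne hcon with h3 | h3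
      · have := h1.2 h3
        omega
      · have := h2.2 h3
        omega
    · intro p' hp'
      refine le_trans (hq.2 p' hp') (le_of_eq ?_)
      unfold fw
      congr 1
      apply filter_congr
      rintro ⟨a, b⟩ hab
      rw [mem_product] at hab
      rw [hlt a hab.1 b hab.2]
  refine ⟨p, ?_, fun u hu w hw h => hopt.1 hu hw h, fun x _ S hS hx => hopt.front hS hx,
    fun x _ S hS hx => hopt.back hS hx⟩
  intro u hu
  rw [hp]
  apply card_lt_card
  rw [ssubset_iff_of_subset (filter_subset _ _)]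
  exact ⟨u, hu, by rw [mem_filter]; exact fun h' => absurd h'.2 (lt_irrefl _)⟩

end basic

section facts

variable {V : Type*} {R : V → V → Prop} {X : Finset V} {p : V → ℕ}

theorem MedO.exists_pos (h : MedO R X p) {t : ℕ} (ht : t < X.card) : ∃ u ∈ X, p u = t := by
  have h1 : X.image p = range X.card := by
    apply eq_of_subset_of_card_le
    · intro t ht
      rw [mem_image] at ht
      obtain ⟨u, hu, rfl⟩ := ht
      rw [mem_range]
      exact h.lt u hu
    · rw [card_range, card_image_of_injOn]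
      exact fun u hu w hw huw => h.inj u hu w hw huw
  have h2 : t ∈ X.image p := by rw [h1, mem_range]; exact ht
  rw [mem_image] at h2
  exact h2

theorem MedO.card_seg (h : MedO R X p) {a b : ℕ} (hb : b ≤ X.card) :
    (X.filter (fun w => a ≤ p w ∧ p w < b)).card = b - a := by
  have h1 : (X.filter (fun w => a ≤ p w ∧ p w < b)).image p = Ico a b := by
    ext t
    rw [mem_image, mem_Ico]
    constructor
    · rintro ⟨u, hu, rfl⟩
      rw [mem_filter] at hu
      exact hu.2
    · intro ht
      obtain ⟨u, hu, hut⟩ := h.exists_pos (show t < X.card by omega)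
      exact ⟨u, by rw [mem_filter, hut]; exact ⟨hu, ht⟩, hut⟩
  rw [← Nat.card_Ico, ← h1, card_image_of_injOn]
  intro u hu w hw huw
  rw [mem_coe, mem_filter] at hu hw
  exact h.inj u hu.1 w hw.1 huw

/-- the reversed order -/
theorem MedO.rev (h : MedO R X p) : MedO (fun a b => R b a) X (fun u => X.card - 1 - p u) := by
  constructor
  · intro u hu
    have := h.lt u hu
    omega
  · intro u hu w hw huw
    have h1 := h.lt u hu
    have h2 := h.lt w hw
    exact h.inj u hu w hw (by omega)
  · intro x hx S hS hxS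
    have h1 := h.back x hx S hS (by
      intro u hu
      have h2 := hxS u hu
      have h3 := h.lt u (hS hu)
      have h4 := h.lt x hx
      omega)
    have h5 : ∀ (Q : V → V → Prop), ∑ u ∈ S, (X.filter (fun w => w ∉ S ∧ p u < p w ∧ p w ≤ p x ∧ Q u w)).card =
        ∑ u ∈ S, (X.filter (fun w => w ∉ S ∧ X.card - 1 - p x ≤ X.card - 1 - p w ∧
          X.card - 1 - p w < X.card - 1 - p u ∧ Q u w)).card := by
      intro Q
      apply sum_congr rfl
      intro u hu
      congr 1
      apply filter_congr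
      intro w hw
      have h3 := h.lt u (hS hu)
      have h4 := h.lt x hx
      have h5 := h.lt w hw
      constructor
      · rintro ⟨a1, a2, a3, a4⟩
        exact ⟨a1, by omega, by omega, a4⟩
      · rintro ⟨a1, a2, a3, a4⟩
        exact ⟨a1, by omega, by omega, a4⟩
    rw [h5 (fun u w => R w u), h5 (fun u w => R u w)] at h1
    exact h1
  · intro x hx S hS hxS
    have h1 := h.front x hx S hS (by
      intro u hu
      have h2 := hxS u hu
      have h3 := h.lt u (hS hu)
      have h4 := h.lt x hx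
      omega)
    have h5 : ∀ (Q : V → V → Prop), ∑ u ∈ S, (X.filter (fun w => w ∉ S ∧ p x ≤ p w ∧ p w < p u ∧ Q u w)).card =
        ∑ u ∈ S, (X.filter (fun w => w ∉ S ∧ X.card - 1 - p u < X.card - 1 - p w ∧
          X.card - 1 - p w ≤ X.card - 1 - p x ∧ Q u w)).card := by
      intro Q
      apply sum_congr rfl
      intro u hu
      congr 1
      apply filter_congr
      intro w hw
      have h3 := h.lt u (hS hu)
      have h4 := h.lt x hx
      have h5 := h.lt w hw
      constructor
      · rintro ⟨a1, a2, a3, a4⟩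
        exact ⟨a1, by omega, by omega, a4⟩
      · rintro ⟨a1, a2, a3, a4⟩
        exact ⟨a1, by omega, by omega, a4⟩
    rw [h5 (fun u w => R u w), h5 (fun u w => R w u)] at h1
    exact h1

/-- intervals of median orders -/
theorem MedO.interval (h : MedO R X p) (s t : ℕ) :
    MedO R (X.filter (fun w => s ≤ p w ∧ p w < t)) (fun u => p u - s) := by
  set Y := X.filter (fun w => s ≤ p w ∧ p w < t) with hY
  have hYX : Y ⊆ X := filter_subset _ _
  have hmem : ∀ {u}, u ∈ Y ↔ u ∈ X ∧ s ≤ p u ∧ p u < t := by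
    intro u
    rw [hY, mem_filter]
  constructor
  · intro u hu
    have h1 := hmem.1 hu
    have h2 := h.lt u h1.1
    have h3 := h.card_seg (a := s) (b := min t X.card) (min_le_right _ _)
    have h4 : (X.filter (fun w => s ≤ p w ∧ p w < min t X.card)) = Y := by
      rw [hY]
      apply filter_congr
      intro w hw
      have := h.lt w hw
      rw [lt_min_iff]
      tauto
    rw [h4] at h3
    rw [h3]
    have := lt_min h1.2.2 h2
    omega
  · intro u hu w hw huw
    have h1 := hmem.1 hu
    have h2 := hmem.1 hw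
    exact h.inj u h1.1 w h2.1 (by omega)
  · intro x hx S hS hxS
    have hx1 := hmem.1 hx
    have h1 := h.front x hx1.1 S (hS.trans hYX) (by
      intro u hu
      have h2 := hxS u hu
      have h3 := hmem.1 (hS hu)
      omega)
    have h5 : ∀ (Q : V → V → Prop), ∑ u ∈ S, (X.filter (fun w => w ∉ S ∧ p x ≤ p w ∧ p w < p u ∧ Q u w)).card =
        ∑ u ∈ S, (Y.filter (fun w => w ∉ S ∧ p x - s ≤ p w - s ∧ p w - s < p u - s ∧ Q u w)).card := by
      intro Q
      apply sum_congr rfl
      intro u hu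
      have hu1 := hmem.1 (hS hu)
      congr 1
      ext w
      rw [mem_filter, mem_filter, hmem]
      constructor
      · rintro ⟨a0, a1, a2, a3, a4⟩
        exact ⟨⟨a0, by omega, by omega⟩, a1, by omega, by omega, a4⟩
      · rintro ⟨⟨a0, a0', a0''⟩, a1, a2, a3, a4⟩
        exact ⟨a0, a1, by omega, by omega, a4⟩
    rw [h5 (fun u w => R u w), h5 (fun u w => R w u)] at h1
    exact h1
  · intro x hx S hS hxS
    have hx1 := hmem.1 hx
    have h1 := h.back x hx1.1 S (hS.trans hYX) (by
      intro u hu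
      have h2 := hxS u hu
      have h3 := hmem.1 (hS hu)
      omega)
    have h5 : ∀ (Q : V → V → Prop), ∑ u ∈ S, (X.filter (fun w => w ∉ S ∧ p u < p w ∧ p w ≤ p x ∧ Q u w)).card =
        ∑ u ∈ S, (Y.filter (fun w => w ∉ S ∧ p u - s < p w - s ∧ p w - s ≤ p x - s ∧ Q u w)).card := by
      intro Q
      apply sum_congr rfl
      intro u hu
      have hu1 := hmem.1 (hS hu)
      congr 1
      ext w
      rw [mem_filter, mem_filter, hmem]
      constructor
      · rintro ⟨a0, a1, a2, a3, a4⟩
        exact ⟨⟨a0, by omega, by omega⟩, a1, by omega, by omega, a4⟩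
      · rintro ⟨⟨a0, a0', a0''⟩, a1, a2, a3, a4⟩
        exact ⟨a0, a1, by omega, by omega, a4⟩
    rw [h5 (fun u w => R w u), h5 (fun u w => R u w)] at h1
    exact h1

/-- every vertex dominates at least half of every interval which follows it -/
theorem MedO.out_half (h : MedO R X p) (hT : AE32.Tour R) {x u : V} (hx : x ∈ X) (hu : u ∈ X) (hxu : p x < p u) :
    p u - p x ≤ 2 * (X.filter (fun w => p x < p w ∧ p w ≤ p u ∧ R x w)).card := by
  have h1 := h.back u hu {x} (by rwa [singleton_subset_iff]) (by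
    intro w hw
    rw [mem_singleton] at hw
    rwa [hw])
  rw [sum_singleton, sum_singleton] at h1
  have h2 := h.card_seg (a := p x + 1) (b := p u + 1) (h.lt u hu)
  have h3 : (X.filter (fun w => p x + 1 ≤ p w ∧ p w < p u + 1)) =
      (X.filter (fun w => w ∉ ({x} : Finset V) ∧ p x < p w ∧ p w ≤ p u ∧ R w x)) ∪
      (X.filter (fun w => w ∉ ({x} : Finset V) ∧ p x < p w ∧ p w ≤ p u ∧ R x w)) := by
    ext w
    rw [mem_union, mem_filter, mem_filter, mem_filter, mem_singleton]
    constructor
    · rintro ⟨a1, a2, a3⟩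
      have hne : w ≠ x := by rintro rfl; omega
      rcases hT.tot w x hne with h4 | h4
      · exact Or.inl ⟨a1, hne, by omega, by omega, h4⟩
      · exact Or.inr ⟨a1, hne, by omega, by omega, h4⟩
    · rintro (⟨a1, a2, a3, a4, a5⟩ | ⟨a1, a2, a3, a4, a5⟩)
      · exact ⟨a1, by omega, by omega⟩
      · exact ⟨a1, by omega, by omega⟩
  have h4 := card_union_le (X.filter (fun w => w ∉ ({x} : Finset V) ∧ p x < p w ∧ p w ≤ p u ∧ R w x))
      (X.filter (fun w => w ∉ ({x} : Finset V) ∧ p x < p w ∧ p w ≤ p u ∧ R x w))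
  rw [← h3, h2] at h4
  have h5 : (X.filter (fun w => w ∉ ({x} : Finset V) ∧ p x < p w ∧ p w ≤ p u ∧ R x w)).card ≤
      (X.filter (fun w => p x < p w ∧ p w ≤ p u ∧ R x w)).card := by
    apply card_le_card
    intro w hw
    rw [mem_filter] at hw ⊢
    exact ⟨hw.1, hw.2.2⟩
  omega

/-- every vertex is dominated by at least half of every interval which precedes it -/
theorem MedO.in_half (h : MedO R X p) (hT : AE32.Tour R) {x u : V} (hx : x ∈ X) (hu : u ∈ X) (hxu : p x < p u) :
    p u - p x ≤ 2 * (X.filter (fun w => p x ≤ p w ∧ p w < p u ∧ R w u)).card := by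
  have h1 := h.front x hx {u} (by rwa [singleton_subset_iff]) (by
    intro w hw
    rw [mem_singleton] at hw
    rwa [hw])
  rw [sum_singleton, sum_singleton] at h1
  have h2 := h.card_seg (a := p x) (b := p u) (h.lt u hu).le
  have h3 : (X.filter (fun w => p x ≤ p w ∧ p w < p u)) =
      (X.filter (fun w => w ∉ ({u} : Finset V) ∧ p x ≤ p w ∧ p w < p u ∧ R u w)) ∪
      (X.filter (fun w => w ∉ ({u} : Finset V) ∧ p x ≤ p w ∧ p w < p u ∧ R w u)) := by
    ext w
    rw [mem_union, mem_filter, mem_filter, mem_filter, mem_singleton]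
    constructor
    · rintro ⟨a1, a2, a3⟩
      have hne : w ≠ u := by rintro rfl; omega
      rcases hT.tot w u hne with h4 | h4
      · exact Or.inr ⟨a1, hne, by omega, by omega, h4⟩
      · exact Or.inl ⟨a1, hne, by omega, by omega, h4⟩
    · rintro (⟨a1, a2, a3, a4, a5⟩ | ⟨a1, a2, a3, a4, a5⟩)
      · exact ⟨a1, by omega, by omega⟩
      · exact ⟨a1, by omega, by omega⟩
  have h4 := card_union_le (X.filter (fun w => w ∉ ({u} : Finset V) ∧ p x ≤ p w ∧ p w < p u ∧ R u w))
      (X.filter (fun w => w ∉ ({u} : Finset V) ∧ p x ≤ p w ∧ p w < p u ∧ R w u))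
  rw [← h3, h2] at h4
  have h5 : (X.filter (fun w => w ∉ ({u} : Finset V) ∧ p x ≤ p w ∧ p w < p u ∧ R w u)).card ≤
      (X.filter (fun w => p x ≤ p w ∧ p w < p u ∧ R w u)).card := by
    apply card_le_card
    intro w hw
    rw [mem_filter] at hw ⊢
    exact ⟨hw.1, hw.2.2⟩
  omega

/-- consecutive vertices -/
theorem MedO.succ (h : MedO R X p) (hT : AE32.Tour R) {x u : V} (hx : x ∈ X) (hu : u ∈ X) (hxu : p u = p x + 1) :
    R x u := by
  have h1 := h.out_half hT hx hu (by omega)
  have h2 : 0 < (X.filter (fun w => p x < p w ∧ p w ≤ p u ∧ R x w)).card := by omega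
  obtain ⟨w, hw⟩ := card_pos.1 h2
  rw [mem_filter] at hw
  have h3 : w = u := h.inj w hw.1 u hu (by omega)
  rw [← h3]
  exact hw.2.2.2

/-- the in-degree inside the initial segment -/
theorem MedO.indeg (h : MedO R X p) (hT : AE32.Tour R) {u : V} (hu : u ∈ X) :
    p u ≤ 2 * (X.filter (fun w => p w < p u ∧ R w u)).card := by
  rcases Nat.eq_zero_or_pos (p u) with h0 | h0
  · omega
  · obtain ⟨x, hx, hx0⟩ := h.exists_pos (show 0 < X.card from lt_of_le_of_lt (Nat.zero_le _) (h.lt u hu))
    have h1 := h.in_half hT hx hu (by omega)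
    have h2 : (X.filter (fun w => p x ≤ p w ∧ p w < p u ∧ R w u)).card ≤
        (X.filter (fun w => p w < p u ∧ R w u)).card := by
      apply card_le_card
      intro w hw
      rw [mem_filter] at hw ⊢
      exact ⟨hw.1, hw.2.2⟩
    omega

/-- the out-degree inside the final segment -/
theorem MedO.outdeg (h : MedO R X p) (hT : AE32.Tour R) {u : V} (hu : u ∈ X) :
    X.card - 1 - p u ≤ 2 * (X.filter (fun w => p u < p w ∧ R u w)).card := by
  rcases Nat.eq_zero_or_pos (X.card - 1 - p u) with h0 | h0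
  · omega
  · obtain ⟨x, hx, hx0⟩ := h.exists_pos (show X.card - 1 < X.card by omega)
    have h1 := h.out_half hT hu hx (by omega)
    have h2 : (X.filter (fun w => p u < p w ∧ p w ≤ p x ∧ R u w)).card ≤
        (X.filter (fun w => p u < p w ∧ R u w)).card := by
      apply card_le_card
      intro w hw
      rw [mem_filter] at hw ⊢
      exact ⟨hw.1, hw.2.1, hw.2.2.2⟩
    omega

theorem sum_rank (S : Finset V) (hinj : ∀ u ∈ S, ∀ w ∈ S, p u = p w → u = w) :
    2 * ∑ u ∈ S, (S.filter (fun w => p w < p u)).card = S.card * (S.card - 1) := by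
  have h1 : ∑ u ∈ S, (S.filter (fun w => p w < p u)).card = ∑ u ∈ S, (S.filter (fun w => p u < p w)).card := by
    rw [← sum_card_filter (S := S) (X := S) (fun u w => p w < p u),
      ← sum_card_filter (S := S) (X := S) (fun u w => p u < p w)]
    apply card_bij (fun q _ => (q.2, q.1))
    · rintro ⟨a, b⟩ hq
      rw [mem_filter, mem_product] at hq ⊢
      exact ⟨⟨hq.1.2, hq.1.1⟩, hq.2⟩
    · rintro ⟨a, b⟩ _ ⟨a', b'⟩ _ hab
      simp only [Prod.mk.injEq] at hab
      rw [hab.1, hab.2]
    · rintro ⟨a, b⟩ hq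
      rw [mem_filter, mem_product] at hq
      exact ⟨(b, a), by rw [mem_filter, mem_product]; exact ⟨⟨hq.1.2, hq.1.1⟩, hq.2⟩, rfl⟩
  have h2 : ∀ u ∈ S, (S.filter (fun w => p w < p u)).card + (S.filter (fun w => p u < p w)).card = S.card - 1 := by
    intro u hu
    rw [← card_union_of_disjoint, ← filter_or, ← card_erase_of_mem hu]
    · congr 1
      ext w
      rw [mem_filter, mem_erase]
      constructor
      · rintro ⟨h3, h4⟩
        exact ⟨by rintro rfl; omega, h3⟩
      · rintro ⟨h3, h4⟩
        refine ⟨h4, ?_⟩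
        have h5 : p w ≠ p u := fun h6 => h3 (hinj w h4 u hu h6)
        omega
    · rw [disjoint_filter]
      intro w _ h3 h4
      omega
  calc 2 * ∑ u ∈ S, (S.filter (fun w => p w < p u)).card
      = ∑ u ∈ S, (S.filter (fun w => p w < p u)).card + ∑ u ∈ S, (S.filter (fun w => p u < p w)).card := by
        rw [← h1]; ring
    _ = ∑ u ∈ S, ((S.filter (fun w => p w < p u)).card + (S.filter (fun w => p u < p w)).card) := by
        rw [sum_add_distrib]
    _ = ∑ _u ∈ S, (S.card - 1) := sum_congr rfl h2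
    _ = S.card * (S.card - 1) := by rw [sum_const, smul_eq_mul]

/-- the between dominators -/
noncomputable def btw (R : V → V → Prop) (X : Finset V) (p : V → ℕ) (x u : V) : Finset V :=
  X.filter (fun w => p x < p w ∧ p w < p u ∧ R x w ∧ R w u)

theorem mem_btw {x u w : V} : w ∈ btw R X p x u ↔ w ∈ X ∧ p x < p w ∧ p w < p u ∧ R x w ∧ R w u := by
  unfold btw
  rw [mem_filter]

/-- a between dominator -/
theorem MedO.exists_btw (h : MedO R X p) (hT : AE32.Tour R) {x u : V} (hx : x ∈ X) (hu : u ∈ X) (hxu : p x < p u)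
    (hR : R u x) : (btw R X p x u).Nonempty := by
  have h1 := h.out_half hT hx hu hxu
  have h2 := h.in_half hT hx hu hxu
  have h3 := h.card_seg (a := p x + 1) (b := p u) (h.lt u hu).le
  set A := X.filter (fun w => p x < p w ∧ p w ≤ p u ∧ R x w) with hA
  set B := X.filter (fun w => p x ≤ p w ∧ p w < p u ∧ R w u) with hB
  have h4 : A ∪ B ⊆ X.filter (fun w => p x + 1 ≤ p w ∧ p w < p u) := by
    intro w hw
    rw [mem_union, hA, hB, mem_filter, mem_filter] at hw
    rw [mem_filter]
    rcases hw with ⟨a1, a2, a3, a4⟩ | ⟨a1, a2, a3, a4⟩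
    · refine ⟨a1, by omega, ?_⟩
      rcases Nat.lt_or_ge (p w) (p u) with h5 | h5
      · exact h5
      · have h6 : w = u := h.inj w a1 u hu (by omega)
        rw [h6] at a4
        exact absurd a4 (hT.asym _ _ hR)
    · refine ⟨a1, ?_, a3⟩
      rcases Nat.lt_or_ge (p x) (p w) with h5 | h5
      · exact h5
      · have h6 : w = x := h.inj w a1 x hx (by omega)
        rw [h6] at a4
        exact absurd a4 (hT.asym _ _ hR)
  have h5 := card_le_card h4
  rw [h3] at h5
  have h6 := card_union_add_card_inter A B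
  have h7 : 0 < (A ∩ B).card := by omega
  obtain ⟨w, hw⟩ := card_pos.1 h7
  rw [mem_inter, hA, hB, mem_filter, mem_filter] at hw
  obtain ⟨⟨a1, a2, a3, a4⟩, b1, b2, b3, b4⟩ := hw
  exact ⟨w, mem_btw.2 ⟨a1, a2, b3, a4, b4⟩⟩

/-- **Gradation with between dominators.** -/
theorem MedO.few (h : MedO R X p) (hT : AE32.Tour R) {x : V} (hx : x ∈ X) (k : ℕ) :
    (X.filter (fun u => p x < p u ∧ R u x ∧ (btw R X p x u).card ≤ k)).card ≤ 4 * k := by
  set S := X.filter (fun u => p x < p u ∧ R u x ∧ (btw R X p x u).card ≤ k) with hS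
  have hmem : ∀ {u}, u ∈ S ↔ u ∈ X ∧ p x < p u ∧ R u x ∧ (btw R X p x u).card ≤ k := by
    intro u
    rw [hS, mem_filter]
  have h1 := h.front x hx S (filter_subset _ _) (fun u hu => (hmem.1 hu).2.1)
  have h2 : ∀ u ∈ S, (X.filter (fun w => w ∉ S ∧ p x ≤ p w ∧ p w < p u ∧ R w u)).card + 2 +
      (S.filter (fun w => p w < p u)).card ≤
      (X.filter (fun w => w ∉ S ∧ p x ≤ p w ∧ p w < p u ∧ R u w)).card + 2 * k := by
    intro u hu
    obtain ⟨huX, hxu, hR, hk⟩ := hmem.1 hu
    obtain ⟨A, hA⟩ : ∃ A, A = X.filter (fun w => p x < p w ∧ p w < p u ∧ R x w) := ⟨_, rfl⟩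
    obtain ⟨B, hB⟩ : ∃ B, B = X.filter (fun w => p x < p w ∧ p w < p u ∧ R w x) := ⟨_, rfl⟩
    -- the two halves
    have h3 := h.back u huX {x} (by rwa [singleton_subset_iff]) (by
      intro w hw
      rw [mem_singleton] at hw
      rwa [hw])
    rw [sum_singleton, sum_singleton] at h3
    have h4 : insert u B ⊆ X.filter (fun w => w ∉ ({x} : Finset V) ∧ p x < p w ∧ p w ≤ p u ∧ R w x) := by
      intro w hw
      rw [mem_insert, hB, mem_filter] at hw
      rw [mem_filter, mem_singleton]
      rcases hw with rfl | ⟨a1, a2, a3, a4⟩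
      · exact ⟨huX, by rintro rfl; omega, hxu, le_rfl, hR⟩
      · exact ⟨a1, by rintro rfl; omega, a2, a3.le, a4⟩
    have h5 : X.filter (fun w => w ∉ ({x} : Finset V) ∧ p x < p w ∧ p w ≤ p u ∧ R x w) ⊆ A := by
      intro w hw
      rw [mem_filter, mem_singleton] at hw
      obtain ⟨a1, a2, a3, a4, a5⟩ := hw
      rw [hA, mem_filter]
      refine ⟨a1, a3, ?_, a5⟩
      rcases Nat.lt_or_ge (p w) (p u) with h5 | h5
      · exact h5
      · have h6 : w = u := h.inj w a1 u huX (by omega)
        rw [h6] at a5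
        exact absurd a5 (hT.asym _ _ hR)
    have h6 : B.card + 1 ≤ A.card := by
      have h7 : u ∉ B := by
        rw [hB, mem_filter]
        rintro ⟨_, _, h8, _⟩
        omega
      have h8 := card_le_card h4
      rw [card_insert_of_notMem h7] at h8
      exact le_trans h8 (le_trans h3 (card_le_card h5))
    -- the members of `S` before `u`
    have h7 : S.filter (fun w => p w < p u) ⊆ B := by
      intro w hw
      rw [mem_filter, hmem] at hw
      rw [hB, mem_filter]
      exact ⟨hw.1.1, hw.1.2.1, hw.2, hw.1.2.2.1⟩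
    -- the in-neighbours
    have h8 : X.filter (fun w => w ∉ S ∧ p x ≤ p w ∧ p w < p u ∧ R w u) ⊆
        btw R X p x u ∪ (B \ S.filter (fun w => p w < p u)) := by
      intro w hw
      rw [mem_filter] at hw
      obtain ⟨a1, a2, a3, a4, a5⟩ := hw
      have hne : w ≠ x := by
        rintro rfl
        exact hT.asym _ _ hR a5
      have h9 : p x < p w := by
        have : p w ≠ p x := fun h' => hne (h.inj w a1 x hx h')
        omega
      rw [mem_union, mem_btw, mem_sdiff, hB, mem_filter, mem_filter]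
      rcases hT.tot x w hne.symm with h10 | h10
      · exact Or.inl ⟨a1, h9, a4, h10, a5⟩
      · exact Or.inr ⟨⟨a1, h9, a4, h10⟩, fun h11 => a2 h11.1⟩
    have h9 := card_le_card h8
    have h10 := card_union_le (btw R X p x u) (B \ S.filter (fun w => p w < p u))
    have h11 : (B \ S.filter (fun w => p w < p u)).card = B.card - (S.filter (fun w => p w < p u)).card := by
      rw [card_sdiff_of_subset h7]
    have h12 := card_le_card h7
    -- the out-neighbours
    have h13 : insert x (A \ btw R X p x u) ⊆ X.filter (fun w => w ∉ S ∧ p x ≤ p w ∧ p w < p u ∧ R u w) := by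
      intro w hw
      rw [mem_insert, mem_sdiff, hA, mem_filter, mem_btw] at hw
      rw [mem_filter]
      rcases hw with rfl | ⟨⟨a1, a2, a3, a4⟩, a5⟩
      · refine ⟨hx, ?_, le_rfl, hxu, hR⟩
        rw [hmem]
        rintro ⟨_, h14, _⟩
        omega
      · refine ⟨a1, ?_, a2.le, a3, ?_⟩
        · rw [hmem]
          rintro ⟨_, _, h14, _⟩
          exact hT.asym _ _ a4 h14
        · rcases hT.tot u w (by rintro rfl; omega) with h14 | h14
          · exact h14
          · exact absurd ⟨a1, a2, a3, a4, h14⟩ a5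
    have h14 : x ∉ A \ btw R X p x u := by
      rw [mem_sdiff, hA, mem_filter]
      rintro ⟨⟨_, h15, _⟩, _⟩
      omega
    have h15 := card_le_card h13
    rw [card_insert_of_notMem h14] at h15
    have h16 := le_card_sdiff (btw R X p x u) A
    omega
  have h3 := sum_le_sum h2
  rw [sum_add_distrib, sum_add_distrib, sum_add_distrib, sum_const, sum_const] at h3
  have h4 := sum_rank (p := p) S (fun u hu w hw => h.inj u (hmem.1 hu).1 w (hmem.1 hw).1)
  simp only [smul_eq_mul] at h3
  set T := ∑ u ∈ S, (S.filter (fun w => p w < p u)).card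
  have h5 : S.card * 2 + T ≤ S.card * (2 * k) := by omega
  rcases Nat.eq_zero_or_pos S.card with h6 | h6
  · omega
  · by_contra hcon
    push Not at hcon
    obtain ⟨s, hs⟩ : ∃ s, S.card = s + 1 := ⟨S.card - 1, by omega⟩
    rw [hs] at h4 h5 hcon
    have h7 : 2 * ((s + 1) * 2 + T) ≤ 2 * ((s + 1) * (2 * k)) := by omega
    have h8 : (s + 1) * (4 + s) ≤ (s + 1) * (4 * k) := by
      have h9 : 2 * T = (s + 1) * s := by rw [h4]; simp
      calc (s + 1) * (4 + s) = 2 * ((s + 1) * 2) + (s + 1) * s := by ring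
        _ = 2 * ((s + 1) * 2 + T) := by rw [← h9]; ring
        _ ≤ 2 * ((s + 1) * (2 * k)) := h7
        _ = (s + 1) * (4 * k) := by ring
    have h10 := Nat.le_of_mul_le_mul_left h8 (Nat.succ_pos s)
    omega

/-- the dual count: few vertices in front of `y` with few between codominators -/
theorem MedO.few' (h : MedO R X p) (hT : AE32.Tour R) {y : V} (hy : y ∈ X) (k : ℕ) :
    (X.filter (fun x => p x < p y ∧ R y x ∧ (btw R X p x y).card ≤ k)).card ≤ 4 * k := by
  have hT' : AE32.Tour (fun a b => R b a) :=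
    ⟨hT.irr, fun a b hab => (hT.tot a b hab).symm, fun a b hab => hT.asym _ _ hab⟩
  have h1 := h.rev.few hT' hy k
  refine le_trans (card_le_card ?_) h1
  intro x hx
  rw [mem_filter] at hx ⊢
  obtain ⟨a1, a2, a3, a4⟩ := hx
  have hy1 := h.lt y hy
  have hx1 := h.lt x a1
  refine ⟨a1, by omega, a3, le_trans (card_le_card ?_) a4⟩
  intro w hw
  rw [mem_btw] at hw ⊢
  obtain ⟨b1, b2, b3, b4, b5⟩ := hw
  have hw1 := h.lt w b1
  exact ⟨b1, by omega, by omega, b5, b4⟩

end facts

end AEM
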