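import Pool.Agent.AEM.Order

/-!
# Paths of length three inside an interval of a median order
-/

set_option autoImplicit false

namespace AEM

open Finset
open scoped Classical

variable {V : Type*} {R : V → V → Prop} {X : Finset V} {p : V → ℕ}

/-- Two vertices of a median order which are not too close to each other are joined by a path `x → a → b → u` with `a`
and `b` strictly between them, also outside a small set `F`. -/
theorem MedO.path3 (h : MedO R X p) (hT : AE32.Tour R) {x u : V} (hx : x ∈ X) (hu : u ∈ X) (F : Finset V)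
    (hg : p x + 18 * F.card + 30 ≤ p u) :
    ∃ a ∈ X, ∃ b ∈ X, a ∉ F ∧ b ∉ F ∧ p x < p a ∧ p a < p u ∧ p x < p b ∧ p b < p u ∧ R x a ∧ R a b ∧ R b u := by
  by_contra hcon
  obtain ⟨A, hA⟩ : ∃ A, A = X.filter (fun w => w ∉ F ∧ p x < p w ∧ p w < p u ∧ R x w) := ⟨_, rfl⟩
  obtain ⟨B, hB⟩ : ∃ B, B = X.filter (fun w => w ∉ F ∧ p x < p w ∧ p w < p u ∧ R w u) := ⟨_, rfl⟩
  have hmA : ∀ {w}, w ∈ A ↔ w ∈ X ∧ w ∉ F ∧ p x < p w ∧ p w < p u ∧ R x w := by
    intro w; rw [hA, mem_filter]
  have hmB : ∀ {w}, w ∈ B ↔ w ∈ X ∧ w ∉ F ∧ p x < p w ∧ p w < p u ∧ R w u := by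
    intro w; rw [hB, mem_filter]
  have hno : ∀ a ∈ A, ∀ b ∈ B, ¬ R a b := by
    intro a ha b hb hab
    rw [hmA] at ha
    rw [hmB] at hb
    exact hcon ⟨a, ha.1, b, hb.1, ha.2.1, hb.2.1, ha.2.2.1, ha.2.2.2.1, hb.2.2.1, hb.2.2.2.1, ha.2.2.2.2, hab,
      hb.2.2.2.2⟩
  have h1 := h.out_half hT hx hu (by omega)
  have h2 := h.in_half hT hx hu (by omega)
  have hA1 : (X.filter (fun w => p x < p w ∧ p w ≤ p u ∧ R x w)).card ≤ A.card + F.card + 1 := by
    have h3 : X.filter (fun w => p x < p w ∧ p w ≤ p u ∧ R x w) ⊆ (A ∪ F) ∪ {u} := by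
      intro w hw
      rw [mem_filter] at hw
      obtain ⟨a1, a2, a3, a4⟩ := hw
      rw [mem_union, mem_union, mem_singleton, hmA]
      by_cases h4 : w = u
      · exact Or.inr h4
      · left
        by_cases h5 : w ∈ F
        · exact Or.inr h5
        · left
          have h6 : p w ≠ p u := fun h' => h4 (h.inj w a1 u hu h')
          exact ⟨a1, h5, a2, by omega, a4⟩
    have h4 := card_le_card h3
    have h5 := card_union_le (A ∪ F) {u}
    have h6 := card_union_le A F
    rw [card_singleton] at h5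
    omega
  have hB1 : (X.filter (fun w => p x ≤ p w ∧ p w < p u ∧ R w u)).card ≤ B.card + F.card + 1 := by
    have h3 : X.filter (fun w => p x ≤ p w ∧ p w < p u ∧ R w u) ⊆ (B ∪ F) ∪ {x} := by
      intro w hw
      rw [mem_filter] at hw
      obtain ⟨a1, a2, a3, a4⟩ := hw
      rw [mem_union, mem_union, mem_singleton, hmB]
      by_cases h4 : w = x
      · exact Or.inr h4
      · left
        by_cases h5 : w ∈ F
        · exact Or.inr h5
        · left
          have h6 : p w ≠ p x := fun h' => h4 (h.inj w a1 x hx h')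
          exact ⟨a1, h5, by omega, a3, a4⟩
    have h4 := card_le_card h3
    have h5 := card_union_le (B ∪ F) {x}
    have h6 := card_union_le B F
    rw [card_singleton] at h5
    omega
  have hAB : (A ∩ B).card ≤ 1 := by
    rw [card_le_one]
    intro c hc c' hc'
    rw [mem_inter] at hc hc'
    by_contra hne
    rcases hT.tot c c' hne with h3 | h3
    · exact hno c hc.1 c' hc'.2 h3
    · exact hno c' hc'.1 c hc.2 h3
  -- the exceptional vertices
  obtain ⟨Ex, hEx⟩ : ∃ Ex, Ex = (X.filter (fun w => p x + 1 ≤ p w ∧ p w < p u)) \ ((A \ B) ∪ (B \ A)) := ⟨_, rfl⟩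
  have hI := h.card_seg (a := p x + 1) (b := p u) (h.lt u hu).le
  have hsub : (A \ B) ∪ (B \ A) ⊆ X.filter (fun w => p x + 1 ≤ p w ∧ p w < p u) := by
    intro w hw
    rw [mem_union, mem_sdiff, mem_sdiff, hmA, hmB] at hw
    rw [mem_filter]
    rcases hw with ⟨⟨a1, _, a3, a4, _⟩, _⟩ | ⟨⟨a1, _, a3, a4, _⟩, _⟩
    · exact ⟨a1, a3, a4⟩
    · exact ⟨a1, a3, a4⟩
  have hdisj : Disjoint (A \ B) (B \ A) := by
    rw [disjoint_left]
    intro w h3 h4
    rw [mem_sdiff] at h3 h4
    exact h4.2 h3.1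
  have hA2 : A.card ≤ (A \ B).card + 1 := by
    have := card_sdiff_add_card_inter A B
    omega
  have hB2 : B.card ≤ (B \ A).card + 1 := by
    have h3 := card_sdiff_add_card_inter B A
    rw [inter_comm] at h3
    omega
  have hExc : Ex.card ≤ 2 * F.card + 3 := by
    rw [hEx, card_sdiff_of_subset hsub, hI, card_union_of_disjoint hdisj]
    omega
  have hBx : ∀ b ∈ B \ A, R b x := by
    intro b hb
    rw [mem_sdiff] at hb
    have hb1 := hmB.1 hb.1
    rcases hT.tot b x (by rintro rfl; omega) with h3 | h3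
    · exact h3
    · exact absurd (hmA.2 ⟨hb1.1, hb1.2.1, hb1.2.2.1, hb1.2.2.2.1, h3⟩) hb.2
  have h3 := h.front x hx (B \ A) (fun w hw => (hmB.1 (mem_sdiff.1 hw).1).1)
    (fun w hw => (hmB.1 (mem_sdiff.1 hw).1).2.2.1)
  have h4 : ∀ b ∈ B \ A, 1 + ((A \ B).filter (fun w => p w < p b)).card ≤
      (X.filter (fun w => w ∉ B \ A ∧ p x ≤ p w ∧ p w < p b ∧ R b w)).card := by
    intro b hb
    have hb1 := hmB.1 (mem_sdiff.1 hb).1
    have h5 : insert x ((A \ B).filter (fun w => p w < p b)) ⊆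
        X.filter (fun w => w ∉ B \ A ∧ p x ≤ p w ∧ p w < p b ∧ R b w) := by
      intro w hw
      rw [mem_insert, mem_filter, mem_sdiff, hmA] at hw
      rw [mem_filter]
      rcases hw with rfl | ⟨⟨⟨a1, a2, a3, a4, a5⟩, a6⟩, a7⟩
      · refine ⟨hx, ?_, le_rfl, hb1.2.2.1, hBx b hb⟩
        rw [mem_sdiff, hmB]
        rintro ⟨⟨_, _, h6, _⟩, _⟩
        omega
      · refine ⟨a1, ?_, a3.le, a7, ?_⟩
        · rw [mem_sdiff]
          rintro ⟨h6, _⟩
          exact a6 h6
        · rcases hT.tot b w (by rintro rfl; omega) with h6 | h6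
          · exact h6
          · exact absurd h6 (hno w (hmA.2 ⟨a1, a2, a3, a4, a5⟩) b (mem_sdiff.1 hb).1)
    have h6 : x ∉ (A \ B).filter (fun w => p w < p b) := by
      rw [mem_filter, mem_sdiff, hmA]
      rintro ⟨⟨⟨_, _, h7, _⟩, _⟩, _⟩
      omega
    have h7 := card_le_card h5
    rw [card_insert_of_notMem h6] at h7
    omega
  have h5 : ∀ b ∈ B \ A, (X.filter (fun w => w ∉ B \ A ∧ p x ≤ p w ∧ p w < p b ∧ R w b)).card ≤ Ex.card := by
    intro b hb
    have hb1 := hmB.1 (mem_sdiff.1 hb).1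
    apply card_le_card
    intro w hw
    rw [mem_filter] at hw
    obtain ⟨a1, a2, a3, a4, a5⟩ := hw
    have hne : w ≠ x := by
      rintro rfl
      exact hT.asym _ _ (hBx b hb) a5
    have h6 : p w ≠ p x := fun h' => hne (h.inj w a1 x hx h')
    rw [hEx, mem_sdiff, mem_filter, mem_union]
    refine ⟨⟨a1, by omega, by omega⟩, ?_⟩
    rintro (h7 | h7)
    · exact hno w (mem_sdiff.1 h7).1 b (mem_sdiff.1 hb).1 a5
    · exact a2 h7
  have h6 : ∀ b ∈ B \ A, ((B \ A).filter (fun w => p w < p b)).card + 1 ≤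
      ((A \ B).filter (fun w => p w < p b)).card + Ex.card := by
    intro b hb
    have hb1 := hmB.1 (mem_sdiff.1 hb).1
    have h7 := h.back b hb1.1 {x} (by rwa [singleton_subset_iff]) (by
      intro w hw
      rw [mem_singleton] at hw
      rw [hw]
      exact hb1.2.2.1)
    rw [sum_singleton, sum_singleton] at h7
    have h8 : insert b ((B \ A).filter (fun w => p w < p b)) ⊆
        X.filter (fun w => w ∉ ({x} : Finset V) ∧ p x < p w ∧ p w ≤ p b ∧ R w x) := by
      intro w hw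
      rw [mem_insert, mem_filter] at hw
      rw [mem_filter, mem_singleton]
      rcases hw with rfl | ⟨a1, a2⟩
      · exact ⟨hb1.1, by rintro rfl; omega, hb1.2.2.1, le_rfl, hBx w hb⟩
      · have h9 := hmB.1 (mem_sdiff.1 a1).1
        exact ⟨h9.1, by rintro rfl; omega, h9.2.2.1, a2.le, hBx w a1⟩
    have h9 : b ∉ (B \ A).filter (fun w => p w < p b) := by
      rw [mem_filter]
      rintro ⟨_, h10⟩
      omega
    have h10 := card_le_card h8
    rw [card_insert_of_notMem h9] at h10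
    have h11 : X.filter (fun w => w ∉ ({x} : Finset V) ∧ p x < p w ∧ p w ≤ p b ∧ R x w) ⊆
        (A \ B).filter (fun w => p w < p b) ∪ Ex := by
      intro w hw
      rw [mem_filter, mem_singleton] at hw
      obtain ⟨a1, a2, a3, a4, a5⟩ := hw
      have hne : w ≠ b := by
        rintro rfl
        exact hT.asym _ _ (hBx w hb) a5
      have h12 : p w ≠ p b := fun h' => hne (h.inj w a1 b hb1.1 h')
      by_cases h13 : w ∈ A \ B
      · exact mem_union_left _ (mem_filter.2 ⟨h13, by omega⟩)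
      · refine mem_union_right _ ?_
        rw [hEx, mem_sdiff, mem_filter, mem_union]
        refine ⟨⟨a1, by omega, by omega⟩, ?_⟩
        rintro (h14 | h14)
        · exact h13 h14
        · exact hT.asym _ _ a5 (hBx w h14)
    have h12 := card_le_card h11
    have h13 := card_union_le ((A \ B).filter (fun w => p w < p b)) Ex
    omega
  have h7 := sum_le_sum h4
  have h8 := sum_le_sum h5
  have h9 := sum_le_sum h6
  rw [sum_add_distrib, sum_const, smul_eq_mul] at h7
  rw [sum_const, smul_eq_mul] at h8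
  rw [sum_add_distrib, sum_add_distrib, sum_const, sum_const, smul_eq_mul, smul_eq_mul] at h9
  have h10 := sum_rank (p := p) (B \ A) (fun a ha b hb => h.inj a (hmB.1 (mem_sdiff.1 ha).1).1 b
    (hmB.1 (mem_sdiff.1 hb).1).1)
  set T := ∑ b ∈ B \ A, ((B \ A).filter (fun w => p w < p b)).card
  set T' := ∑ b ∈ B \ A, ((A \ B).filter (fun w => p w < p b)).card
  obtain ⟨s, hs⟩ : ∃ s, (B \ A).card = s + 1 := ⟨(B \ A).card - 1, by omega⟩
  rw [hs] at h7 h8 h9 h10 hB2
  have h11 : (s + 1) * 1 + T' ≤ (s + 1) * Ex.card := by omega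
  have h12 : 2 * T = (s + 1) * s := by rw [h10]; simp
  have h13 : (s + 1) * (s + 4) ≤ (s + 1) * (4 * Ex.card) := by
    calc (s + 1) * (s + 4) = (s + 1) * s + 2 * ((s + 1) * 1) + 2 * ((s + 1) * 1) := by ring
      _ = 2 * (T + (s + 1) * 1) + 2 * ((s + 1) * 1) := by rw [← h12]; ring
      _ ≤ 2 * (T' + (s + 1) * Ex.card) + 2 * ((s + 1) * 1) := by omega
      _ = 2 * ((s + 1) * 1 + T') + 2 * ((s + 1) * Ex.card) := by ring
      _ ≤ 2 * ((s + 1) * Ex.card) + 2 * ((s + 1) * Ex.card) := by omega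
      _ = (s + 1) * (4 * Ex.card) := by ring
  have h14 := Nat.le_of_mul_le_mul_left h13 (Nat.succ_pos s)
  omega

end AEM
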